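import Mathlib
import Pool.Agent.V11215.LineTriple

/-!
MP_975509_gt, Q1 (negated form): three compact (three-point) metric spaces which cannot be embedded
isometrically in one metric space with all Hausdorff distances equal to the Gromov–Hausdorff
distances.
-/

set_option autoImplicit false

universe u

namespace Pool.Agent.Results.MP_975509_gt.ThreeThreePointSpaces

open Set Metric
open Pool.Agent.V11215.LineTriple

theorem gh_le {X Y : Type} [MetricSpace X] [MetricSpace Y] [CompactSpace X] [CompactSpace Y]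
    [Nonempty X] [Nonempty Y] (f : X → Y) (hs : Function.Surjective f)
    (h : ∀ x x', |dist x x' - dist (f x) (f x')| ≤ 2) : GromovHausdorff.ghDist X Y ≤ 1 := by
  have := GromovHausdorff.ghDist_le_of_approx_subsets (s := (univ : Set X)) (X := X) (Y := Y)
    (fun x => f x.1) (ε₁ := 0) (ε₂ := 2) (ε₃ := 0) (fun x => ⟨x, mem_univ x, by simp⟩)
    (fun y => by
      obtain ⟨x, rfl⟩ := hs y
      exact ⟨⟨x, mem_univ x⟩, by simp⟩) (fun x y => h x.1 y.1)
  linarith

/-- There are nonempty compact metric spaces `X 0`, `X 1`, `X 2` such that for every metric space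
`Z` (compact or not) and all isometric embeddings `φ i : X i → Z`, some pair `i ≠ j` has
`d_H(φ i (X i), φ j (X j)) > d_GH(X i, X j)`. -/
theorem result : ∃ (X : Fin 3 → Type) (_ : ∀ i, MetricSpace (X i)) (_ : ∀ i, CompactSpace (X i))
    (_ : ∀ i, Nonempty (X i)), ∀ (Z : Type u) [MetricSpace Z] (φ : ∀ i, X i → Z),
      (∀ i, Isometry (φ i)) → ∃ i j, i ≠ j ∧
        GromovHausdorff.ghDist (X i) (X j) < hausdorffDist (range (φ i)) (range (φ j)) := by
  refine ⟨fun i => Sp i, fun i => inferInstance, fun i => inferInstance, fun i => inferInstance, ?_⟩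
  intro Z _ φ hφ
  obtain ⟨i, j, hij, h⟩ := not_realised φ hφ
  refine ⟨i, j, hij, lt_of_le_of_lt ?_ (lt_of_lt_of_le (by norm_num : (1 : ℝ) < 5 / 4) h)⟩
  exact gh_le (fun x => ⟨x.val⟩) (fun y => ⟨⟨y.val⟩, rfl⟩) (fun x x' => dis_le i j x.val x'.val)

end Pool.Agent.Results.MP_975509_gt.ThreeThreePointSpaces
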